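import Pool.Agent.Q234.HS.Stm

/-! JOB B: bounds with a power of the logarithm. -/

set_option autoImplicit false

namespace Pool.Agent.Q216.HS

open Filter Topology
open Pool.Agent.Q234.HS

theorem exp_sqrt {x : ℝ} (hx : 0 ≤ x) : (x + 1) * Real.exp (-√x) ≤ 2 := by
  have h1 := Real.quadratic_le_exp_of_nonneg (Real.sqrt_nonneg x)
  rw [Real.sq_sqrt hx] at h1
  have h2 : 0 < Real.exp (√x) := Real.exp_pos _
  have h3 := Real.sqrt_nonneg x
  rw [Real.exp_neg, ← div_eq_mul_inv, div_le_iff₀ h2]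
  linarith

theorem log_two_half : (1 : ℝ) / 2 ≤ Real.log 2 := by linarith [Real.log_two_gt_d9]

/-- `(log x)^κ ≤ √x` -/
theorem logk {κ : ℝ} (hκ0 : 0 < κ) (hκ : κ ≤ 1 / 2) {x : ℝ} (hx : 2 ≤ x) :
    Real.log x ^ κ ≤ √x := by
  have hl0 : 0 ≤ Real.log x := Real.log_nonneg (by linarith)
  have hs1 : 1 ≤ √x := by
    rw [Real.one_le_sqrt]
    linarith
  rcases le_total (Real.log x) 1 with h | h
  · exact (Real.rpow_le_one hl0 h hκ0.le).trans hs1
  · calc Real.log x ^ κ ≤ Real.log x ^ (1 / 2 : ℝ) := Real.rpow_le_rpow_of_exponent_le h hκ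
      _ ≤ x ^ (1 / 2 : ℝ) := Real.rpow_le_rpow hl0
          ((Real.log_le_sub_one_of_pos (by linarith)).trans (by linarith)) (by norm_num)
      _ = √x := (Real.sqrt_eq_rpow x).symm

theorem logk_pos (κ : ℝ) {x : ℝ} (hx : 2 ≤ x) : 0 < Real.log x ^ κ :=
  Real.rpow_pos_of_pos (Real.log_pos (by linarith)) _

/-- the comparison function -/
noncomputable def G (κ x : ℝ) : ℝ := x / Real.log x ^ κ

theorem G_pos (κ : ℝ) {x : ℝ} (hx : 2 ≤ x) : 0 < G κ x := div_pos (by linarith) (logk_pos κ hx)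

theorem G_sqrt {κ : ℝ} (hκ0 : 0 < κ) (hκ : κ ≤ 1 / 2) {x : ℝ} (hx : 2 ≤ x) : √x ≤ G κ x := by
  unfold G
  rw [le_div_iff₀ (logk_pos κ hx)]
  calc √x * Real.log x ^ κ ≤ √x * √x :=
        mul_le_mul_of_nonneg_left (logk hκ0 hκ hx) (Real.sqrt_nonneg _)
    _ = x := Real.mul_self_sqrt (by linarith)

theorem G_one {κ : ℝ} (hκ0 : 0 < κ) (hκ : κ ≤ 1 / 2) {x : ℝ} (hx : 2 ≤ x) : 1 ≤ G κ x := by
  refine le_trans ?_ (G_sqrt hκ0 hκ hx)
  rw [Real.one_le_sqrt]
  linarith

/-- almost monotone -/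
theorem G_le {κ : ℝ} (hκ0 : 0 < κ) (hκ : κ ≤ 1 / 2) {x y : ℝ} (hx : 2 ≤ x) (hy : 2 ≤ y)
    (hxy : x ≤ 2 * y) : G κ x ≤ 4 * G κ y := by
  rcases le_total x (√y) with h | h
  · have h1 : (1 : ℝ) / 2 ≤ Real.log x ^ κ := by
      have h2 : Real.log 2 ≤ Real.log x := Real.log_le_log two_pos hx
      have h3 : (1 : ℝ) / 2 ≤ Real.log x := log_two_half.trans h2
      calc (1 : ℝ) / 2 ≤ (1 / 2 : ℝ) ^ κ := by
            have := Real.rpow_le_rpow_of_exponent_ge (by norm_num : (0 : ℝ) < 1 / 2) (by norm_num)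
              (by linarith : κ ≤ 1)
            rwa [Real.rpow_one] at this
        _ ≤ Real.log x ^ κ := Real.rpow_le_rpow (by norm_num) h3 hκ0.le
    have h2 : G κ x ≤ 2 * x := by
      unfold G
      rw [div_le_iff₀ (logk_pos κ hx)]
      nlinarith
    have h3 := G_sqrt hκ0 hκ hy
    have h4 := Real.sqrt_nonneg y
    linarith
  · have h0 : 0 < Real.log y := Real.log_pos (by linarith)
    have h1 : Real.log y / 2 ≤ Real.log x := by
      have h2 := Real.log_le_log (Real.sqrt_pos.2 (by linarith)) h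
      rw [Real.log_sqrt (by linarith)] at h2
      exact h2
    have h2 : (1 / 2 : ℝ) * Real.log y ^ κ ≤ Real.log x ^ κ := by
      calc (1 / 2 : ℝ) * Real.log y ^ κ ≤ (1 / 2 : ℝ) ^ κ * Real.log y ^ κ := by
            have := Real.rpow_le_rpow_of_exponent_ge (by norm_num : (0 : ℝ) < 1 / 2) (by norm_num)
              (by linarith : κ ≤ 1)
            rw [Real.rpow_one] at this
            exact mul_le_mul_of_nonneg_right this (logk_pos κ hy).le
        _ = (1 / 2 * Real.log y) ^ κ := (Real.mul_rpow (by norm_num) h0.le).symm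
        _ ≤ Real.log x ^ κ := Real.rpow_le_rpow (by positivity) (by linarith) hκ0.le
    unfold G
    have hy0 := logk_pos κ hy
    rw [div_le_iff₀ (logk_pos κ hx)]
    calc x ≤ 2 * y := hxy
      _ = 4 * (y / Real.log y ^ κ) * ((1 / 2 : ℝ) * Real.log y ^ κ) := by
          field_simp
          ring
      _ ≤ _ := mul_le_mul_of_nonneg_left h2 (by positivity)

theorem fin3 : S_fin3 := by
  intro c1 N0 hc1
  set κ := min c1 (1 / 2) with hκd
  have hκ0 : 0 < κ := lt_min hc1 (by norm_num)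
  have hκ : κ ≤ 1 / 2 := min_le_right _ _
  have hκc : κ ≤ c1 := min_le_left _ _
  set N1 := max N0 3 with hN1
  set K1 : ℝ := 5 + 2 * N1 with hK1
  have hN1' : (3 : ℝ) ≤ N1 := by exact_mod_cast le_max_right N0 3
  have hK10 : 0 < K1 := by positivity
  refine ⟨κ, 3 * (4 * K1 + 2), hκ0, by positivity, ?_⟩
  intro f hf1 hf2
  have key : ∀ n : ℕ, 2 ≤ n → f n ≤ K1 * G κ n := by
    intro n hn
    have hn' : (2 : ℝ) ≤ n := by exact_mod_cast hn
    have hG1 := G_one hκ0 hκ hn'
    rcases lt_or_ge n N1 with h | h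
    · refine (hf1 n).trans ?_
      have h1 : (n : ℝ) = G κ n * Real.log n ^ κ := by
        unfold G
        rw [div_mul_cancel₀ _ (logk_pos κ hn').ne']
      have h2 : Real.log n ^ κ ≤ N1 := by
        refine (logk hκ0 hκ hn').trans ?_
        have h3 : √(n : ℝ) ≤ n := by
          rw [Real.sqrt_le_left (by linarith)]
          nlinarith
        have h4 : (n : ℝ) ≤ N1 := by exact_mod_cast h.le
        linarith
      have h3 : (n : ℝ) ≤ G κ n * N1 := by
        calc (n : ℝ) = G κ n * Real.log n ^ κ := h1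
          _ ≤ _ := mul_le_mul_of_nonneg_left h2 (by linarith)
      rw [hK1]
      nlinarith
    · have h0 : N0 ≤ n := (le_max_left _ _).trans h
      have h3 : 3 ≤ n := (le_max_right _ _).trans h
      have h3' : (3 : ℝ) ≤ n := by exact_mod_cast h3
      refine (hf2 n h0).trans ?_
      have hl : 1 ≤ Real.log n := by
        rw [Real.le_log_iff_exp_le (by linarith)]
        linarith [Real.exp_one_lt_d9]
      have h4 : (n : ℝ) / Real.log n ^ c1 ≤ G κ n := by
        unfold G
        exact div_le_div_of_nonneg_left (by linarith) (logk_pos κ hn')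
          (Real.rpow_le_rpow_of_exponent_le hl hκc)
      have h5 := exp_sqrt (x := n) (by linarith)
      rw [Real.sqrt_eq_rpow] at h5
      rw [hK1]
      nlinarith
  refine ⟨fun n hn => ?_, fun N hN => ?_⟩
  · refine (key n hn).trans ?_
    have hG := G_pos κ (by exact_mod_cast hn : (2 : ℝ) ≤ n)
    have h1 : K1 * G κ n ≤ 3 * (4 * K1 + 2) * G κ n := mul_le_mul_of_nonneg_right (by linarith) hG.le
    exact h1
  · have hN' : (2 : ℝ) ≤ N := by exact_mod_cast hN
    have hG1 := G_one hκ0 hκ hN'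
    have h1 : ∀ n ∈ Finset.range (2 * N + 1), f n ≤ (4 * K1 + 2) * G κ N := by
      intro n hn
      rw [Finset.mem_range] at hn
      rcases lt_or_ge n 2 with h | h
      · refine (hf1 n).trans ?_
        have h2 : (n : ℝ) ≤ 1 := by exact_mod_cast (by omega : n ≤ 1)
        nlinarith
      · refine (key n h).trans ?_
        have h2 := G_le hκ0 hκ (by exact_mod_cast h : (2 : ℝ) ≤ n) hN'
          (by exact_mod_cast (by omega : n ≤ 2 * N))
        nlinarith
    refine (Finset.sum_le_sum h1).trans ?_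
    rw [Finset.sum_const, Finset.card_range, nsmul_eq_mul]
    have h2 : (N : ℝ) ^ 2 / Real.log N ^ κ = N * G κ N := by
      unfold G
      ring
    rw [h2]
    push_cast
    have h3 : 0 ≤ (4 * K1 + 2) * G κ N := by positivity
    nlinarith

end Pool.Agent.Q216.HS
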