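import Pool.Agent.Q216.HS.HSB

/-! JOB C: bounds with an almost power. -/

set_option autoImplicit false

namespace Pool.Agent.Q216.HS

open Filter Topology
open Pool.Agent.Q234.HS

theorem ll_one {x : ℝ} (hx : 16 ≤ x) : 1 ≤ Real.log (Real.log x) := by
  have h1 : Real.log 16 = 4 * Real.log 2 := by
    rw [show (16 : ℝ) = 2 ^ 4 by norm_num, Real.log_pow]
    norm_num
  have h2 : Real.log 16 ≤ Real.log x := Real.log_le_log (by norm_num) hx
  have h3 : Real.exp 1 ≤ Real.log x := by
    linarith [Real.exp_one_lt_d9, Real.log_two_gt_d9]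
  rw [Real.le_log_iff_exp_le ((Real.exp_pos 1).trans_le h3)]
  exact h3

/-- the comparison function -/
noncomputable def D (κ x : ℝ) : ℝ := x ^ (1 - κ / Real.log (Real.log x))

theorem D_anti {κ κ' x : ℝ} (hx : 16 ≤ x) (h : κ ≤ κ') : D κ' x ≤ D κ x := by
  have h1 := ll_one hx
  unfold D
  refine Real.rpow_le_rpow_of_exponent_le (by linarith) ?_
  have := div_le_div_of_nonneg_right h (by linarith : 0 ≤ Real.log (Real.log x))
  linarith

theorem D_one {κ x : ℝ} (hx : 16 ≤ x) (hκ : κ ≤ 1) : 1 ≤ D κ x := by
  have h1 := ll_one hx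
  unfold D
  refine Real.one_le_rpow (by linarith) ?_
  have : κ / Real.log (Real.log x) ≤ 1 := by
    rw [div_le_iff₀ (by linarith)]
    linarith
  linarith

/-- almost monotone -/
theorem D_le {k x y : ℝ} (hk0 : 0 < k) (hk : k ≤ 1) (hx : 16 ≤ x) (hy : 16 ≤ y)
    (hxy : x ≤ 2 * y) : D k x ≤ 2 * D (k / 4) y := by
  have hlx := ll_one hx
  have hly := ll_one hy
  have hx0 : (0 : ℝ) < x := by linarith
  have hy0 : (0 : ℝ) < y := by linarith
  have hlogx : 0 < Real.log x := Real.log_pos (by linarith)
  have hlogy : 0 < Real.log y := Real.log_pos (by linarith)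
  rcases le_total x (√y) with h | h
  · have h1 : D k x ≤ x := by
      unfold D
      calc x ^ (1 - k / Real.log (Real.log x)) ≤ x ^ (1 : ℝ) := by
            refine Real.rpow_le_rpow_of_exponent_le (by linarith) ?_
            have : 0 ≤ k / Real.log (Real.log x) := by positivity
            linarith
        _ = x := Real.rpow_one x
    have h2 : √y ≤ D (k / 4) y := by
      rw [Real.sqrt_eq_rpow]
      unfold D
      refine Real.rpow_le_rpow_of_exponent_le (by linarith) ?_
      have : k / 4 / Real.log (Real.log y) ≤ 1 / 4 := by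
        rw [div_le_iff₀ (by linarith)]
        nlinarith
      linarith
    have h3 := D_one hy (by linarith : k / 4 ≤ 1)
    linarith
  · have h1 : Real.log y / 2 ≤ Real.log x := by
      have h2 := Real.log_le_log (Real.sqrt_pos.2 hy0) h
      rwa [Real.log_sqrt hy0.le] at h2
    have h2 : Real.log x ≤ Real.log 2 + Real.log y := by
      rw [← Real.log_mul (by norm_num) hy0.ne']
      exact Real.log_le_log hx0 hxy
    have h3 : Real.log 2 ≤ Real.log y := Real.log_le_log two_pos (by linarith)
    have h4 : Real.log (Real.log x) ≤ 2 * Real.log (Real.log y) := by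
      have h5 : Real.log (Real.log x) ≤ Real.log (2 * Real.log y) :=
        Real.log_le_log hlogx (by linarith)
      rw [Real.log_mul (by norm_num) hlogy.ne'] at h5
      linarith [Real.log_two_lt_d9]
    have h5 : k / 4 / Real.log (Real.log y) * Real.log y ≤
        k / Real.log (Real.log x) * Real.log x := by
      have h6 : k / 4 / Real.log (Real.log y) * Real.log y =
          k / (2 * Real.log (Real.log y)) * (Real.log y / 2) := by
        field_simp
        ring
      rw [h6]
      refine mul_le_mul ?_ h1 (by positivity) (by positivity)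
      exact div_le_div_of_nonneg_left hk0.le (by linarith) h4
    unfold D
    rw [Real.rpow_def_of_pos hx0, Real.rpow_def_of_pos hy0]
    calc Real.exp (Real.log x * (1 - k / Real.log (Real.log x))) ≤
          Real.exp (Real.log 2 + Real.log y * (1 - k / 4 / Real.log (Real.log y))) := by
          apply Real.exp_le_exp.2
          linarith
      _ = _ := by rw [Real.exp_add, Real.exp_log two_pos]

theorem fin2 : S_fin2 := by
  intro c1 C hc1 hC
  set k := min c1 1 with hkd
  have hk0 : 0 < k := lt_min hc1 one_pos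
  have hk : k ≤ 1 := min_le_right _ _
  have hkc : k ≤ c1 := min_le_left _ _
  set K1 : ℝ := 3 * C + 2 with hK1
  have hK10 : 0 < K1 := by positivity
  refine ⟨k / 4, 3 * (2 * K1 + 17), by positivity, by positivity, ?_⟩
  intro f hf1 hf2
  have key : ∀ n : ℕ, 16 ≤ n → f n ≤ K1 * D k n := by
    intro n hn
    have hn' : (16 : ℝ) ≤ n := by exact_mod_cast hn
    have hD1 := D_one hn' hk
    refine (hf2 n hn).trans ?_
    have h1 : (n : ℝ) ^ (1 - c1 / Real.log (Real.log n)) ≤ D k n := D_anti hn' hkc
    have h2 : ((n : ℝ) + 1) * Real.exp (-(n : ℝ) ^ (4 / 5 : ℝ)) ≤ 2 := by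
      refine le_trans ?_ (exp_sqrt (x := n) (by linarith))
      refine mul_le_mul_of_nonneg_left ?_ (by linarith)
      apply Real.exp_le_exp.2
      rw [Real.sqrt_eq_rpow]
      have := Real.rpow_le_rpow_of_exponent_le (by linarith : (1 : ℝ) ≤ n)
        (by norm_num : (1 / 2 : ℝ) ≤ 4 / 5)
      linarith
    have h3 : ((n : ℝ) + 1) * (C * Real.exp (-(n : ℝ) ^ (4 / 5 : ℝ))) ≤ C * 2 := by
      calc ((n : ℝ) + 1) * (C * Real.exp (-(n : ℝ) ^ (4 / 5 : ℝ))) =
            C * (((n : ℝ) + 1) * Real.exp (-(n : ℝ) ^ (4 / 5 : ℝ))) := by ring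
        _ ≤ _ := mul_le_mul_of_nonneg_left h2 hC.le
    have h4 : C * (n : ℝ) ^ (1 - c1 / Real.log (Real.log n)) ≤ C * D k n :=
      mul_le_mul_of_nonneg_left h1 hC.le
    have h5 : C * 2 ≤ C * 2 * D k n := by nlinarith
    rw [hK1]
    nlinarith
  refine ⟨fun n hn => ?_, fun N hN => ?_⟩
  · have hn' : (16 : ℝ) ≤ n := by exact_mod_cast hn
    refine (key n hn).trans ?_
    have h1 : D k n ≤ D (k / 4) n := D_anti hn' (by linarith)
    have h2 := D_one hn' (by linarith : k / 4 ≤ 1)
    calc K1 * D k n ≤ K1 * D (k / 4) n := mul_le_mul_of_nonneg_left h1 hK10.le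
      _ ≤ 3 * (2 * K1 + 17) * D (k / 4) n := mul_le_mul_of_nonneg_right (by linarith) (by linarith)
  · have hN' : (16 : ℝ) ≤ N := by exact_mod_cast hN
    have hD1 := D_one hN' (by linarith : k / 4 ≤ 1)
    have h1 : ∀ n ∈ Finset.range (2 * N + 1), f n ≤ (2 * K1 + 17) * D (k / 4) N := by
      intro n hn
      rw [Finset.mem_range] at hn
      rcases lt_or_ge n 16 with h | h
      · refine (hf1 n).trans ?_
        have h2 : (n : ℝ) ≤ 16 := by exact_mod_cast h.le
        nlinarith
      · refine (key n h).trans ?_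
        have h2 := D_le hk0 hk (by exact_mod_cast h : (16 : ℝ) ≤ n) hN'
          (by exact_mod_cast (by omega : n ≤ 2 * N))
        nlinarith
    refine (Finset.sum_le_sum h1).trans ?_
    rw [Finset.sum_const, Finset.card_range, nsmul_eq_mul]
    have h2 : (N : ℝ) ^ (2 - k / 4 / Real.log (Real.log N)) = N * D (k / 4) N := by
      unfold D
      rw [← Real.rpow_one_add' (by linarith)]
      · congr 1
        ring
      · have h3 := ll_one hN'
        have : k / 4 / Real.log (Real.log N) ≤ 1 := by
          rw [div_le_iff₀ (by linarith)]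
          linarith
        linarith
    rw [h2]
    push_cast
    have h3 : 0 ≤ (2 * K1 + 17) * D (k / 4) N := by positivity
    nlinarith

end Pool.Agent.Q216.HS
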